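import Mathlib
import Pool.Agent.CKHeight.Defs
import Pool.Agent.CKHeight.Heights
import Pool.Agent.CKHeight.Iso

/-!
# Order-preserving bi-Lipschitz bijections of `C(K)` spaces need not preserve the height

The witness: `K = [0, ω]` (the one-point compactification of `ℕ`), `L = K × K` and a positive
linear isomorphism of `C(K)` onto `C(L)`; here `height K = 2` and `height L = 3`.
-/

set_option autoImplicit false

open scoped NNReal

namespace Pool.Agent.Results.MP_d12f8b_an.HeightNotPreserved

open Pool.Agent.CKHeight

/-- **Negative answer to Q2.** There are countable compact Hausdorff spaces `K`, `L` of heights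
`2` and `3` and an order-preserving linear bijection `F : C(K) → C(L)` such that `F` and its
inverse are Lipschitz for the supremum norms. -/
theorem result : ∃ (K L : Type) (_ : TopologicalSpace K) (_ : TopologicalSpace L)
    (_ : CompactSpace K) (_ : CompactSpace L) (_ : T2Space K) (_ : T2Space L),
    Countable K ∧ Countable L ∧
    (∃ F : C(K, ℝ) ≃ₗ[ℝ] C(L, ℝ), (∀ f g, f ≤ g → F f ≤ F g) ∧
      (∃ c : ℝ≥0, LipschitzWith c F) ∧ (∃ c : ℝ≥0, LipschitzWith c F.symm)) ∧
    height K = 2 ∧ height L = 3 := by
  have : Countable Om := inferInstanceAs (Countable (Option ℕ))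
  exact ⟨Om, Om × Om, inferInstance, inferInstance, inferInstance, inferInstance, inferInstance,
    inferInstance, inferInstance, inferInstance, main, height_om, height_prod⟩

end Pool.Agent.Results.MP_d12f8b_an.HeightNotPreserved
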